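import Pool.Agent.N783.CF.WR

/-! Project WR (helper783), part WW (helper58): the full wreath product in terms of the roots. -/

set_option autoImplicit false

namespace Pool.Agent.N58.WR

open Polynomial NumberField
open Pool.Agent.N783.CF

section abs

variable {A Ω E : Type} [Group A]

theorem pinv {X : Type} (π : Equiv.Perm X) (z : X) : π (π⁻¹ z) = z := π.apply_symm_apply z

/-- actions, as functions -/
structure Act {X : Type} (a : A → X → X) : Prop where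
  one : ∀ z, a 1 z = z
  mul : ∀ s t z, a (s * t) z = a s (a t z)

theorem Act.inv_eq {X : Type} {a : A → X → X} (h : Act a) {s : A} {z w : X} (hs : a s z = w) :
    a s⁻¹ w = z := by
  rw [← hs, ← h.mul, inv_mul_cancel, h.one]

theorem Act.inv_cancel {X : Type} {a : A → X → X} (h : Act a) (s : A) (z : X) :
    a s (a s⁻¹ z) = z := by
  rw [← h.mul, mul_inv_cancel, h.one]

variable (a : A → Ω → Ω) (b : A → E → E) (Z : E → Set Ω)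

/-- `s` realises the permutation `x` over `φ₀` -/
def Pp (φ₀ : E) (x : Equiv.Perm (Z φ₀)) (s : A) : Prop :=
  (∀ φ, b s φ = φ) ∧ (∀ φ, φ ≠ φ₀ → ∀ z ∈ Z φ, a s z = z) ∧ ∀ z : Z φ₀, a s z = x z

/-- the group of the realised permutations -/
def Hs (ha : Act a) (hb : Act b) (φ₀ : E) : Subgroup (Equiv.Perm (Z φ₀)) where
  carrier := {x | ∃ s, Pp a b Z φ₀ x s}
  mul_mem' := by
    rintro x y ⟨s, s1, s2, s3⟩ ⟨t, t1, t2, t3⟩
    refine ⟨s * t, fun φ => ?_, fun φ hφ z hz => ?_, fun z => ?_⟩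
    · rw [hb.mul, t1, s1]
    · rw [ha.mul, t2 φ hφ z hz, s2 φ hφ z hz]
    · rw [ha.mul, t3, s3, Equiv.Perm.mul_apply]
  one_mem' := ⟨1, fun φ => hb.one φ, fun φ _ z _ => ha.one z, fun z => ha.one z⟩
  inv_mem' := by
    rintro x ⟨s, s1, s2, s3⟩
    refine ⟨s⁻¹, fun φ => hb.inv_eq (s1 φ), fun φ hφ z hz => ha.inv_eq (s2 φ hφ z hz),
      fun z => ?_⟩
    apply ha.inv_eq
    rw [s3, pinv]

variable {a b Z}

theorem normal (ha : Act a) (hb : Act b) (hZ : ∀ s φ z, z ∈ Z φ → a s z ∈ Z (b s φ))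
    (h2 : ∀ φ (u : Ω → Ω), Set.BijOn u (Z φ) (Z φ) → ∃ σ, b σ φ = φ ∧ ∀ z ∈ Z φ, a σ z = u z)
    (φ₀ : E) : (Hs a b Z ha hb φ₀).Normal := by
  classical
  constructor
  rintro x ⟨s, s1, s2, s3⟩ π
  obtain ⟨σ, σ1, σ2⟩ := h2 φ₀ (fun z => if h : z ∈ Z φ₀ then (π ⟨z, h⟩ : Ω) else z) (by
    refine ⟨fun z hz => ?_, fun z hz w hw h => ?_, fun w hw => ?_⟩
    · simp only [dif_pos hz]
      exact (π ⟨z, hz⟩).2
    · simp only [dif_pos hz, dif_pos hw] at h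
      have h3 := π.injective (Subtype.ext h)
      exact congrArg Subtype.val h3
    · refine ⟨(π⁻¹ ⟨w, hw⟩ : Z φ₀), (π⁻¹ ⟨w, hw⟩).2, ?_⟩
      have h4 : ((π⁻¹ ⟨w, hw⟩ : Z φ₀) : Ω) ∈ Z φ₀ := (π⁻¹ ⟨w, hw⟩).2
      simp only [dif_pos h4, Subtype.coe_eta, pinv])
  have σ3 : ∀ z : Z φ₀, a σ z = π z := fun z => by
    rw [σ2 z z.2]
    simp only [dif_pos z.2, Subtype.coe_eta]
  have σ4 : ∀ z : Z φ₀, a σ⁻¹ z = (π⁻¹ z : Z φ₀) := fun z =>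
    ha.inv_eq (by rw [σ3, pinv])
  refine ⟨σ * s * σ⁻¹, fun φ => ?_, fun φ hφ z hz => ?_, fun z => ?_⟩
  · rw [hb.mul, hb.mul, s1, hb.inv_cancel]
  · have h1 : b σ⁻¹ φ ≠ φ₀ := by
      intro h
      apply hφ
      have h3 := hb.inv_cancel σ φ
      rw [h, σ1] at h3
      exact h3.symm
    rw [ha.mul, ha.mul, s2 _ h1 _ (hZ _ _ _ hz), ha.inv_cancel]
  · rw [ha.mul, ha.mul, σ4, s3, σ3]
    rfl

/-- the permutation of `Z φ₀` induced by an element that fixes `φ₀` -/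
def perm (ha : Act a) (hb : Act b) (hZ : ∀ s φ z, z ∈ Z φ → a s z ∈ Z (b s φ)) (φ₀ : E) (s : A)
    (hs : b s φ₀ = φ₀) : Equiv.Perm (Z φ₀) where
  toFun z := ⟨a s z, by have h := hZ s φ₀ z z.2; rwa [hs] at h⟩
  invFun z := ⟨a s⁻¹ z, by have h := hZ s⁻¹ φ₀ z z.2; rwa [hb.inv_eq hs] at h⟩
  left_inv z := Subtype.ext (ha.inv_eq rfl)
  right_inv z := Subtype.ext (ha.inv_cancel s z)

theorem perm_pow (ha : Act a) (hb : Act b) (hZ : ∀ s φ z, z ∈ Z φ → a s z ∈ Z (b s φ)) (φ₀ : E)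
    (s : A) (hs : b s φ₀ = φ₀) (k : ℕ) (z : Z φ₀) :
    (((perm ha hb hZ φ₀ s hs) ^ k) z : Ω) = a (s ^ k) z := by
  induction k with
  | zero => rw [pow_zero, pow_zero, ha.one]; rfl
  | succ n ih =>
    rw [pow_succ', pow_succ', ha.mul, ← ih]
    rfl

theorem step1 (hG : S_GRP) (ha : Act a) (hb : Act b)
    (hZ : ∀ s φ z, z ∈ Z φ → a s z ∈ Z (b s φ)) {g : ℕ} (hg : 1 ≤ g)
    (hc : ∀ φ, (Z φ).ncard = 2 * g + 1)
    (h1 : ∀ φ₀, ∃ s, (∀ φ, b s φ = φ) ∧ (∀ φ, φ ≠ φ₀ → ∀ z ∈ Z φ, a s z = z) ∧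
      ∃ z₀ ∈ Z φ₀, a s z₀ = z₀ ∧ ∀ z ∈ Z φ₀, ∀ z' ∈ Z φ₀, z ≠ z₀ → z' ≠ z₀ →
        ∃ k : ℕ, z' = a (s ^ k) z)
    (h2 : ∀ φ (u : Ω → Ω), Set.BijOn u (Z φ) (Z φ) → ∃ σ, b σ φ = φ ∧ ∀ z ∈ Z φ, a σ z = u z)
    (φ₀ : E) (x : Equiv.Perm (Z φ₀)) : ∃ s, Pp a b Z φ₀ x s := by
  classical
  have hfin : (Z φ₀).Finite := Set.finite_of_ncard_ne_zero (by rw [hc]; omega)
  haveI : Fintype (Z φ₀) := hfin.fintype
  have hcard : Fintype.card (Z φ₀) = 2 * g + 1 := by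
    rw [← hc φ₀, ← Nat.card_coe_set_eq, Nat.card_eq_fintype_card]
  obtain ⟨s, s1, s2, z₀, hz₀, s3, s4⟩ := h1 φ₀
  have htop : Hs a b Z ha hb φ₀ = ⊤ := by
    refine hG g (Z φ₀) (Hs a b Z ha hb φ₀) hg hcard (normal ha hb hZ h2 φ₀) ?_
    refine ⟨perm ha hb hZ φ₀ s (s1 φ₀), ⟨s, s1, s2, fun z => rfl⟩, ⟨z₀, hz₀⟩, Subtype.ext s3,
      fun z z' h h' => ?_⟩
    obtain ⟨k, hk⟩ := s4 z z.2 z' z'.2 (fun e => h (Subtype.ext e)) (fun e => h' (Subtype.ext e))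
    exact ⟨k, Subtype.ext (by rw [perm_pow]; exact hk)⟩
  have hx : x ∈ Hs a b Z ha hb φ₀ := by
    rw [htop]
    exact Subgroup.mem_top x
  exact hx

theorem absw (hG : S_GRP) (ha : Act a) (hb : Act b) [Finite E]
    (hZ : ∀ s φ z, z ∈ Z φ → a s z ∈ Z (b s φ)) {g : ℕ} (hg : 1 ≤ g)
    (hc : ∀ φ, (Z φ).ncard = 2 * g + 1)
    (h1 : ∀ φ₀, ∃ s, (∀ φ, b s φ = φ) ∧ (∀ φ, φ ≠ φ₀ → ∀ z ∈ Z φ, a s z = z) ∧
      ∃ z₀ ∈ Z φ₀, a s z₀ = z₀ ∧ ∀ z ∈ Z φ₀, ∀ z' ∈ Z φ₀, z ≠ z₀ → z' ≠ z₀ →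
        ∃ k : ℕ, z' = a (s ^ k) z)
    (h2 : ∀ φ (u : Ω → Ω), Set.BijOn u (Z φ) (Z φ) → ∃ σ, b σ φ = φ ∧ ∀ z ∈ Z φ, a σ z = u z)
    (ρ : A) (u : E → Ω → Ω) (hu : ∀ φ, Set.BijOn (u φ) (Z φ) (Z (b ρ φ))) :
    ∃ σ, ∀ φ, b σ φ = b ρ φ ∧ ∀ z ∈ Z φ, a σ z = u φ z := by
  classical
  haveI : Fintype E := Fintype.ofFinite E
  have hinv : ∀ φ, b ρ⁻¹ (b ρ φ) = φ := fun φ => hb.inv_eq rfl
  have hmem : ∀ φ, ∀ z ∈ Z φ, a ρ⁻¹ (u φ z) ∈ Z φ := by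
    intro φ z hz
    have h3 := hZ ρ⁻¹ (b ρ φ) (u φ z) ((hu φ).mapsTo hz)
    rwa [hinv] at h3
  have hbij : ∀ φ, Function.Bijective
      (fun z : Z φ => (⟨a ρ⁻¹ (u φ z), hmem φ z z.2⟩ : Z φ)) := by
    intro φ
    constructor
    · intro z w h
      have h3 : a ρ⁻¹ (u φ z) = a ρ⁻¹ (u φ w) := congrArg Subtype.val h
      have h4 := congrArg (a ρ) h3
      rw [ha.inv_cancel, ha.inv_cancel] at h4
      exact Subtype.ext ((hu φ).injOn z.2 w.2 h4)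
    · intro w
      obtain ⟨z, hz, h3⟩ := (hu φ).surjOn (hZ ρ φ w w.2)
      refine ⟨⟨z, hz⟩, Subtype.ext ?_⟩
      change a ρ⁻¹ (u φ z) = w
      rw [h3]
      exact ha.inv_eq rfl
  obtain ⟨x, hx⟩ : ∃ x : ∀ φ, Equiv.Perm (Z φ), ∀ φ (z : Z φ), (x φ z : Ω) = a ρ⁻¹ (u φ z) :=
    ⟨fun φ => Equiv.ofBijective _ (hbij φ), fun φ z => rfl⟩
  have hT : ∀ T : Finset E, ∃ s, (∀ φ, b s φ = φ) ∧
      (∀ φ ∈ T, ∀ z : Z φ, a s z = x φ z) ∧ ∀ φ, φ ∉ T → ∀ z : Z φ, a s z = z := by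
    intro T
    induction T using Finset.induction_on with
    | empty =>
      exact ⟨1, fun φ => hb.one φ, fun φ hφ => absurd hφ (Finset.notMem_empty φ),
        fun φ _ z => ha.one z⟩
    | insert φ₀ T hφ₀ ih =>
      obtain ⟨s, s1, s2, s3⟩ := ih
      obtain ⟨t, t1, t2, t3⟩ := step1 hG ha hb hZ hg hc h1 h2 φ₀ (x φ₀)
      refine ⟨s * t, fun φ => by rw [hb.mul, t1, s1], fun φ hφ z => ?_, fun φ hφ z => ?_⟩
      · by_cases he : φ = φ₀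
        · subst he
          rw [ha.mul, t3, s3 φ hφ₀]
        · have hφT : φ ∈ T := by
            rcases Finset.mem_insert.1 hφ with h | h
            · exact absurd h he
            · exact h
          rw [ha.mul, t2 φ he z z.2, s2 φ hφT]
      · have he : φ ≠ φ₀ := fun h => hφ (h ▸ Finset.mem_insert_self _ _)
        have hφT : φ ∉ T := fun h => hφ (Finset.mem_insert_of_mem h)
        rw [ha.mul, t2 φ he z z.2, s3 φ hφT]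
  obtain ⟨s, s1, s2, -⟩ := hT Finset.univ
  refine ⟨ρ * s, fun φ => ⟨by rw [hb.mul, s1], fun z hz => ?_⟩⟩
  rw [ha.mul]
  have h3 := s2 φ (Finset.mem_univ φ) ⟨z, hz⟩
  have h4 := hx φ ⟨z, hz⟩
  rw [h4] at h3
  change a s z = a ρ⁻¹ (u φ z) at h3
  rw [h3, ha.inv_cancel]

end abs

theorem t_WW : S_GRP → S_WW := by
  intro hG g K _ _ M _ f hg hc h1 h2 ρ u hu
  haveI : FiniteDimensional K M := Module.Finite.of_restrictScalars_finite ℚ K M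
  refine absw (A := AlgebraicClosure K ≃ₐ[K] AlgebraicClosure K) (Ω := AlgebraicClosure K)
    (E := M →ₐ[K] AlgebraicClosure K) (a := fun σ z => σ z)
    (b := fun σ φ => σ.toAlgHom.comp φ) (Z := fun φ => Zr M φ f) hG ⟨fun z => rfl, fun s t z => rfl⟩
    ⟨fun φ => rfl, fun s t φ => rfl⟩ ?_ hg hc h1 h2 ρ u hu
  intro σ φ z hz
  change (f.map (((σ.toAlgHom.comp φ : M →ₐ[K] AlgebraicClosure K) :
    M →+* AlgebraicClosure K).comp (algebraMap (𝓞 M) M))).eval (σ z) = 0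
  have hz' : (f.map ((φ : M →+* AlgebraicClosure K).comp (algebraMap (𝓞 M) M))).eval z = 0 := hz
  rw [Polynomial.eval_map] at hz' ⊢
  have h3 := Polynomial.hom_eval₂ f ((φ : M →+* AlgebraicClosure K).comp (algebraMap (𝓞 M) M))
    (σ : AlgebraicClosure K →+* AlgebraicClosure K) z
  rw [hz', map_zero] at h3
  exact h3.symm

end Pool.Agent.N58.WR
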